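import Mathlib

/-!
# MP_af3d17_nt: lower bounds for power sums by positivity

If `w_1, …, w_n` are complex numbers of modulus at most one, the Abel means of the power sums have
real parts which are sums of positive terms.
-/

set_option autoImplicit false

namespace Pool.Agent.ZP20

open Finset Complex Filter Topology

lemma re_inv_one_sub {z : ℂ} (h : ‖z‖ < 1) : 0 ≤ ((1 - z)⁻¹).re := by
  rw [Complex.inv_re, Complex.sub_re, Complex.one_re]
  have h1 := Complex.re_le_norm z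
  exact div_nonneg (by linarith) (Complex.normSq_nonneg _)

/-- the term of a point close to `1` -/
lemma re_inv_close {z : ℂ} {l H η : ℝ} (hz : ‖z‖ ≤ 1) (hη : ‖1 - z‖ ≤ η) (hH : 1 ≤ H)
    (hl : l = 1 - 1 / H) : H / (1 + H * η) ^ 2 ≤ ((1 - l * z)⁻¹).re := by
  have hH0 : 0 < H := by linarith
  have hH1 : 1 / H ≤ 1 := by rw [div_le_one hH0]; exact hH
  have hHp : 0 < 1 / H := by positivity
  have hl0 : 0 ≤ l := by rw [hl]; linarith
  have hl1 : l ≤ 1 := by rw [hl]; linarith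
  have hη0 : 0 ≤ η := (norm_nonneg _).trans hη
  have h1 : 1 / H ≤ (1 - l * z).re := by
    rw [Complex.sub_re, Complex.one_re, Complex.re_ofReal_mul]
    have h2 : z.re ≤ 1 := (Complex.re_le_norm z).trans hz
    have h3 : l * z.re ≤ l * 1 := mul_le_mul_of_nonneg_left h2 hl0
    rw [hl] at h3 ⊢
    linarith
  have h2 : ‖1 - l * z‖ ≤ (1 + H * η) / H := by
    have e : (1 : ℂ) - l * z = ((1 / H : ℝ) : ℂ) + l * (1 - z) := by
      rw [hl]; push_cast; ring
    have h3 : ‖((1 / H : ℝ) : ℂ)‖ = 1 / H := by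
      rw [Complex.norm_real, Real.norm_of_nonneg hHp.le]
    have h4 : ‖(l : ℂ) * (1 - z)‖ ≤ 1 * η := by
      rw [norm_mul, Complex.norm_real, Real.norm_of_nonneg hl0]
      exact mul_le_mul hl1 hη (norm_nonneg _) zero_le_one
    rw [e]
    refine (norm_add_le _ _).trans ?_
    rw [h3]
    have h5 : (1 + H * η) / H = 1 / H + 1 * η := by field_simp
    rw [h5]
    linarith
  have hpos : 0 < ‖1 - l * z‖ := by
    have := Complex.re_le_norm (1 - l * z)
    linarith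
  rw [Complex.inv_re, Complex.normSq_eq_norm_sq]
  have h3 : ‖1 - (l : ℂ) * z‖ ^ 2 ≤ ((1 + H * η) / H) ^ 2 := pow_le_pow_left₀ hpos.le h2 2
  have e : H / (1 + H * η) ^ 2 = (1 / H) / ((1 + H * η) / H) ^ 2 := by
    field_simp
  rw [e]
  exact div_le_div₀ (hHp.le.trans h1) h1 (by positivity) h3

/-- the Abel means of the power sums -/
lemma abel {n : ℕ} {v : Fin n → ℂ} (hv : ∀ i, ‖v i‖ ≤ 1) {J0 : ℕ} {L : ℝ} (hL : 0 ≤ L)
    (hS : ∀ j ≥ J0, ‖∑ i, v i ^ j‖ ≤ L) {H l : ℝ} (hH : 1 ≤ H) (hl : l = 1 - 1 / H) :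
    ∑ i, ((1 - l * v i)⁻¹).re ≤ n * J0 + L * H := by
  have hH0 : 0 < H := by linarith
  have hH1 : 1 / H ≤ 1 := by rw [div_le_one hH0]; exact hH
  have hHp : 0 < 1 / H := by positivity
  have hl0 : 0 ≤ l := by rw [hl]; linarith
  have hl1 : l < 1 := by rw [hl]; linarith
  have hn : ∀ i, ‖(l : ℂ) * v i‖ < 1 := by
    intro i
    rw [norm_mul, Complex.norm_real, Real.norm_of_nonneg hl0]
    calc l * ‖v i‖ ≤ l * 1 := mul_le_mul_of_nonneg_left (hv i) hl0
      _ < 1 := by linarith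
  have h1 : HasSum (fun j : ℕ => ∑ i, ((l : ℂ) * v i) ^ j) (∑ i, (1 - l * v i)⁻¹) :=
    hasSum_sum fun i _ => hasSum_geometric_of_norm_lt_one (hn i)
  have hSn : ∀ j, ‖∑ i, v i ^ j‖ ≤ n := by
    intro j
    refine (norm_sum_le _ _).trans ?_
    calc ∑ i, ‖v i ^ j‖ ≤ ∑ _i : Fin n, (1 : ℝ) := by
          refine Finset.sum_le_sum fun i _ => ?_
          rw [norm_pow]
          exact pow_le_one₀ (norm_nonneg _) (hv i)
      _ = n := by simp
  have hb : ∀ j, ‖∑ i, ((l : ℂ) * v i) ^ j‖ ≤ (if j ∈ range J0 then (n : ℝ) else 0) + L * l ^ j := by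
    intro j
    have e : ∑ i, ((l : ℂ) * v i) ^ j = (l : ℂ) ^ j * ∑ i, v i ^ j := by
      rw [Finset.mul_sum]
      exact Finset.sum_congr rfl fun i _ => mul_pow _ _ _
    have hlj : 0 ≤ l ^ j := pow_nonneg hl0 j
    have hlj1 : l ^ j ≤ 1 := pow_le_one₀ hl0 hl1.le
    rw [e, norm_mul, norm_pow, Complex.norm_real, Real.norm_of_nonneg hl0]
    by_cases hj : j < J0
    · rw [if_pos (mem_range.2 hj)]
      have h2 : l ^ j * ‖∑ i, v i ^ j‖ ≤ 1 * n :=
        mul_le_mul hlj1 (hSn j) (norm_nonneg _) zero_le_one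
      have h3 : 0 ≤ L * l ^ j := mul_nonneg hL hlj
      linarith
    · rw [if_neg (by rwa [mem_range])]
      have h2 := mul_le_mul_of_nonneg_left (hS j (not_lt.1 hj)) hlj
      linarith
  have h2 : HasSum (fun j => (if j ∈ range J0 then (n : ℝ) else 0) + L * l ^ j)
      (n * J0 + L * H) := by
    have h3 : HasSum (fun j => if j ∈ range J0 then (n : ℝ) else 0) (n * J0) := by
      have h4 : ∑ j ∈ range J0, (if j ∈ range J0 then (n : ℝ) else 0) = n * J0 := by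
        rw [Finset.sum_congr rfl fun j hj => if_pos hj]
        rw [Finset.sum_const, card_range, nsmul_eq_mul]
        ring
      rw [← h4]
      exact hasSum_sum_of_ne_finset_zero fun j hj => if_neg hj
    have h5 : HasSum (fun j => L * l ^ j) (L * H) := by
      have h6 := (hasSum_geometric_of_lt_one hl0 hl1).mul_left L
      have e : (1 - l)⁻¹ = H := by
        rw [hl, sub_sub_cancel, one_div, inv_inv]
      rwa [e] at h6
    exact h3.add h5
  have h3 := tsum_of_norm_bounded h2 hb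
  rw [h1.tsum_eq] at h3
  have h4 : ∑ i, ((1 - l * v i)⁻¹).re = (∑ i, (1 - (l : ℂ) * v i)⁻¹).re := by
    rw [Complex.re_sum]
  rw [h4]
  exact (Complex.re_le_norm _).trans h3

/-- one number equal to `1` -/
lemma one_point {n : ℕ} {v : Fin n → ℂ} (hv : ∀ i, ‖v i‖ ≤ 1) {a : Fin n} (ha : v a = 1)
    {J0 : ℕ} {L : ℝ} (hL : 0 ≤ L) (hS : ∀ j ≥ J0, ‖∑ i, v i ^ j‖ ≤ L) {H : ℝ} (hH : 1 ≤ H) :
    H ≤ n * J0 + L * H := by
  obtain ⟨l, hl⟩ : ∃ l : ℝ, l = 1 - 1 / H := ⟨_, rfl⟩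
  have hH0 : 0 < H := by linarith
  have hH1 : 1 / H ≤ 1 := by rw [div_le_one hH0]; exact hH
  have hHp : 0 < 1 / H := by positivity
  have hl0 : 0 ≤ l := by rw [hl]; linarith
  have hl1 : l < 1 := by rw [hl]; linarith
  refine le_trans ?_ (abel hv hL hS hH hl)
  have h1 : ((1 - (l : ℂ) * v a)⁻¹).re = H := by
    rw [ha, mul_one]
    have : (1 : ℂ) - l = ((1 / H : ℝ) : ℂ) := by rw [hl]; push_cast; ring
    rw [this, ← Complex.ofReal_inv, Complex.ofReal_re, one_div, inv_inv]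
  have h2 : ((1 - (l : ℂ) * v a)⁻¹).re ≤ ∑ i, ((1 - (l : ℂ) * v i)⁻¹).re := by
    refine Finset.single_le_sum (f := fun i => ((1 - (l : ℂ) * v i)⁻¹).re) (fun i _ => ?_)
      (mem_univ a)
    apply re_inv_one_sub
    rw [norm_mul, Complex.norm_real, Real.norm_of_nonneg hl0]
    calc l * ‖v i‖ ≤ l * 1 := mul_le_mul_of_nonneg_left (hv i) hl0
      _ < 1 := by linarith
  rw [h1] at h2
  exact h2

/-- one number equal to `1` and another one close to `1` -/
lemma two_points {n : ℕ} {v : Fin n → ℂ} (hv : ∀ i, ‖v i‖ ≤ 1) {a b : Fin n} (hab : a ≠ b)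
    (ha : v a = 1) {η : ℝ} (hb : ‖1 - v b‖ ≤ η) {J0 : ℕ} {L : ℝ} (hL : 0 ≤ L)
    (hS : ∀ j ≥ J0, ‖∑ i, v i ^ j‖ ≤ L) {H : ℝ} (hH : 1 ≤ H) :
    H + H / (1 + H * η) ^ 2 ≤ n * J0 + L * H := by
  obtain ⟨l, hl⟩ : ∃ l : ℝ, l = 1 - 1 / H := ⟨_, rfl⟩
  have hH0 : 0 < H := by linarith
  have hH1 : 1 / H ≤ 1 := by rw [div_le_one hH0]; exact hH
  have hHp : 0 < 1 / H := by positivity
  have hl0 : 0 ≤ l := by rw [hl]; linarith
  have hl1 : l < 1 := by rw [hl]; linarith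
  refine le_trans ?_ (abel hv hL hS hH hl)
  have h1 : ((1 - (l : ℂ) * v a)⁻¹).re = H := by
    rw [ha, mul_one]
    have : (1 : ℂ) - l = ((1 / H : ℝ) : ℂ) := by rw [hl]; push_cast; ring
    rw [this, ← Complex.ofReal_inv, Complex.ofReal_re, one_div, inv_inv]
  have h3 := re_inv_close (hv b) hb hH hl
  have h2 : ∑ i ∈ {a, b}, ((1 - (l : ℂ) * v i)⁻¹).re ≤ ∑ i, ((1 - (l : ℂ) * v i)⁻¹).re := by
    refine Finset.sum_le_univ_sum_of_nonneg fun i => ?_
    apply re_inv_one_sub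
    rw [norm_mul, Complex.norm_real, Real.norm_of_nonneg hl0]
    calc l * ‖v i‖ ≤ l * 1 := mul_le_mul_of_nonneg_left (hv i) hl0
      _ < 1 := by linarith
  rw [Finset.sum_pair hab, h1] at h2
  linarith

/-- bounded power sums: no number of modulus larger than one -/
lemma norm_le_one_of_bounded {n : ℕ} {w : Fin n → ℂ} {J0 : ℕ} {L : ℝ}
    (hS : ∀ j ≥ J0, ‖∑ i, w i ^ j‖ ≤ L) : ∀ i, ‖w i‖ ≤ 1 := by
  by_contra hcon
  push Not at hcon
  obtain ⟨i0, hi0⟩ := hcon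
  obtain ⟨a, -, ha⟩ := Finset.exists_max_image univ (fun i => ‖w i‖) ⟨i0, mem_univ _⟩
  have hM : 1 < ‖w a‖ := hi0.trans_le (ha i0 (mem_univ _))
  have hM0 : 0 < ‖w a‖ := by linarith
  have hwa : w a ≠ 0 := norm_pos_iff.1 hM0
  have hL : 0 ≤ L := (norm_nonneg _).trans (hS J0 le_rfl)
  have hv : ∀ i, ‖w i / w a‖ ≤ 1 := by
    intro i
    rw [norm_div, div_le_one hM0]
    exact ha i (mem_univ _)
  obtain ⟨J1, hJ1⟩ := pow_unbounded_of_one_lt (2 * L) hM
  have hS' : ∀ j ≥ max J0 J1, ‖∑ i, (w i / w a) ^ j‖ ≤ 1 / 2 := by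
    intro j hj
    have e : ∑ i, (w i / w a) ^ j = (∑ i, w i ^ j) / w a ^ j := by
      rw [Finset.sum_div]
      exact Finset.sum_congr rfl fun i _ => div_pow _ _ _
    rw [e, norm_div, norm_pow, div_le_iff₀ (by positivity)]
    have h1 := hS j ((le_max_left _ _).trans hj)
    have h2 : ‖w a‖ ^ J1 ≤ ‖w a‖ ^ j := pow_le_pow_right₀ hM.le ((le_max_right _ _).trans hj)
    linarith
  have h1 := one_point hv (a := a) (div_self hwa) (by norm_num : (0 : ℝ) ≤ 1 / 2) hS'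
    (H := 2 * (n * (max J0 J1 : ℕ)) + 1) (by
      have : (0 : ℝ) ≤ 2 * (n * (max J0 J1 : ℕ)) := by positivity
      linarith)
  linarith

end Pool.Agent.ZP20
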