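import Pool.Agent.Lib.MP_af3d17_nt_h20.Upper
import Pool.Agent.Lib.MP_af3d17_nt_h20.PowerSum

/-!
# MP_af3d17_nt: large prime sums from small gaps and from exceptional zeros
-/

set_option autoImplicit false

namespace Pool.Agent.ZP20

open Finset Complex Filter Topology Metric
open Pool.Agent.ZP

/-- a power of `1 / (1 - i g)` close to `1` -/
lemma close_pow {g : ℝ} (hg0 : 0 < g) (hg1 : g ≤ 1 / 100) :
    ∃ m : ℕ, 1 ≤ m ∧ 1 / g ≤ m ∧ ‖1 - ((1 - g * I : ℂ)⁻¹) ^ m‖ ≤ 16 * g := by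
  have hpi := Real.pi_gt_three
  have hpi4 : Real.pi < 3.15 := Real.pi_lt_d2
  obtain ⟨m, hm⟩ : ∃ m : ℕ, m = ⌊2 * Real.pi / g⌋₊ := ⟨_, rfl⟩
  have h1 : (m : ℝ) ≤ 2 * Real.pi / g := by rw [hm]; exact Nat.floor_le (by positivity)
  have h2 : 2 * Real.pi / g < m + 1 := by rw [hm]; exact Nat.lt_floor_add_one _
  rw [le_div_iff₀ hg0] at h1
  rw [div_lt_iff₀ hg0] at h2
  have h3 : 1 / g ≤ m := by
    rw [div_le_iff₀ hg0]; linarith
  have h4 : (1 : ℝ) ≤ m := by
    refine le_trans ?_ h3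
    rw [le_div_iff₀ hg0]; linarith
  refine ⟨m, by exact_mod_cast h4, h3, ?_⟩
  have hm0 : (0 : ℝ) ≤ m := by linarith
  have hne : (1 - g * I : ℂ) ≠ 0 := by
    intro h0
    have := congrArg Complex.re h0
    simp at this
  obtain ⟨l, hl⟩ : ∃ l : ℂ, l = Complex.log (1 + (-(g * I))) := ⟨_, rfl⟩
  have hng : ‖-((g : ℂ) * I)‖ = g := by
    rw [norm_neg, norm_mul, Complex.norm_I, mul_one, Complex.norm_real, Real.norm_of_nonneg hg0.le]
  have h5 : ‖l + g * I‖ ≤ g ^ 2 := by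
    have h6 := Complex.norm_log_one_add_sub_self_le (z := -(g * I)) (by rw [hng]; linarith)
    rw [hng, ← hl, sub_neg_eq_add] at h6
    refine h6.trans ?_
    have h7 : (1 - g)⁻¹ ≤ 2 := by
      rw [inv_le_comm₀ (by linarith) (by norm_num)]
      linarith
    have h8 : g ^ 2 * (1 - g)⁻¹ ≤ g ^ 2 * 2 := mul_le_mul_of_nonneg_left h7 (sq_nonneg g)
    linarith
  have h6 : ((1 - g * I : ℂ)⁻¹) ^ m = Complex.exp ((m * g - 2 * Real.pi : ℝ) * I - m * (l + g * I)) := by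
    have e1 : (1 - g * I : ℂ) = Complex.exp l := by
      rw [hl, Complex.exp_log (by rw [← sub_eq_add_neg]; exact hne), sub_eq_add_neg]
    rw [e1, ← Complex.exp_neg, ← Complex.exp_nat_mul]
    have e2 : ((m * g - 2 * Real.pi : ℝ) : ℂ) * I - m * (l + g * I) = (m : ℂ) * -l - 2 * Real.pi * I := by
      push_cast
      ring
    rw [e2, Complex.exp_sub, Complex.exp_two_pi_mul_I, div_one]
  obtain ⟨e, he⟩ : ∃ e : ℂ, e = (m * g - 2 * Real.pi : ℝ) * I - m * (l + g * I) := ⟨_, rfl⟩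
  rw [← he] at h6
  have h7 : ‖e‖ ≤ 8 * g := by
    rw [he]
    refine (norm_sub_le _ _).trans ?_
    rw [norm_mul, norm_mul, Complex.norm_I, mul_one, Complex.norm_real, Complex.norm_natCast,
      Real.norm_eq_abs]
    have h8 : |(m : ℝ) * g - 2 * Real.pi| ≤ g := by
      rw [abs_le]; constructor <;> linarith
    have h9 : (m : ℝ) * ‖l + g * I‖ ≤ m * g ^ 2 := mul_le_mul_of_nonneg_left h5 hm0
    have h10 : (m : ℝ) * g ^ 2 ≤ 7 * g := by
      have h11 : (m : ℝ) * g ≤ 7 := by linarith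
      have := mul_le_mul_of_nonneg_right h11 hg0.le
      calc (m : ℝ) * g ^ 2 = m * g * g := by ring
        _ ≤ 7 * g := this
    linarith
  rw [h6, norm_sub_rev]
  have h8 := Complex.norm_exp_sub_one_le (x := e) (by linarith)
  linarith

/-- exceptional zeros at arbitrarily large height -/
theorem lower_bad (h : ¬ ∃ T0 : ℝ, RH T0) (c : ℝ) {L : ℝ} (hL : L < 2) (T : ℝ) :
    ∃ t ≥ T, ∃ k : ℕ, t ^ c ≤ k ∧ L < ‖primeSum k t‖ := by
  obtain ⟨C, T1, hC, hT1, hz⟩ := primeSum_zeros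
  have h1 : ∃ ρ : ℂ, IsUpperZero ρ ∧ max T T1 < ρ.im ∧ 1 / 2 ≤ ρ.re ∧
      (ρ.re = 1 / 2 → deriv riemannZeta ρ = 0) := by
    by_contra hcon
    push Not at hcon
    apply h
    refine ⟨max T T1, fun ρ hρ hT => ?_⟩
    by_contra hbad
    rw [not_and_or] at hbad
    rcases lt_or_ge ρ.re (1 / 2) with hlt | hge
    · obtain ⟨h2, h3⟩ := mirror hρ
      have h4 : (1 - (starRingEnd ℂ) ρ).re = 1 - ρ.re := by simp
      obtain ⟨h5, h6⟩ := hcon _ h2 (by rw [h3]; exact hT) (by rw [h4]; linarith)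
      rw [h4] at h5
      linarith
    · obtain ⟨h5, h6⟩ := hcon ρ hρ hT hge
      rcases hbad with h7 | h7
      · exact h7 h5
      · exact h7 h6
  obtain ⟨ρ, hρ, hT, hre, hder⟩ := h1
  obtain ⟨t, ht⟩ : ∃ t : ℝ, t = ρ.im := ⟨_, rfl⟩
  rw [← ht] at hT
  have htT : T ≤ t := ((le_max_left _ _).trans_lt hT).le
  have htT1 : T1 ≤ t := ((le_max_right _ _).trans_lt hT).le
  have ht100 : 100 ≤ t := hT1.trans htT1
  by_contra hcon
  push Not at hcon
  have hb := hcon t htT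
  obtain ⟨n, z, hn, hz1, hz2, hz3, hz4, hps⟩ := hz t htT1
  have hlog : 0 ≤ Real.log t := Real.log_nonneg (by linarith)
  -- the error is small for large `k`
  have herr : ∀ᶠ k : ℕ in atTop, C * Real.log t * (10 / 11) ^ k < (2 - L) / 2 := by
    have h2 : Tendsto (fun k : ℕ => C * Real.log t * (10 / 11 : ℝ) ^ k) atTop (𝓝 0) := by
      have := (tendsto_pow_atTop_nhds_zero_of_lt_one (by norm_num : (0 : ℝ) ≤ 10 / 11)
        (by norm_num)).const_mul (C * Real.log t)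
      rwa [mul_zero] at this
    exact h2.eventually (gt_mem_nhds (by linarith))
  obtain ⟨K, hK⟩ := eventually_atTop.1 (herr.and (eventually_ge_atTop ⌈t ^ c⌉₊))
  have hS : ∀ j ≥ K + 1, ‖∑ i, ((pt (3 / 2) t - z i)⁻¹) ^ j‖ ≤ (L + 2) / 2 := by
    intro j hj
    obtain ⟨k, rfl⟩ : ∃ k, j = k + 1 := ⟨j - 1, by omega⟩
    obtain ⟨h2, h3⟩ := hK k (by omega)
    have h4 : t ^ c ≤ k := (Nat.le_ceil _).trans (by exact_mod_cast h3)
    have h5 := hb k h4
    have h6 := abs_le.1 (hps k)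
    linarith [h6.1]
  have hw := norm_le_one_of_bounded hS
  have hL0 : 0 ≤ (L + 2) / 2 := (norm_nonneg _).trans (hS (K + 1) le_rfl)
  -- the zero itself
  have hmem : ρ ∈ closedBall (pt 10 t) (97 / 10) := by
    have e : ρ = pt ρ.re ρ.im := Complex.ext rfl rfl
    rw [e, ← ht]
    refine pt_mem_disc (by norm_num) ?_
    have h2 := hρ.2.2.1
    rw [sub_self]
    have h3 : (ρ.re - 10) ^ 2 ≤ (97 / 10) ^ 2 := by
      rw [← sq_abs (ρ.re - 10)]
      apply pow_le_pow_left₀ (abs_nonneg _)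
      rw [abs_le]; constructor <;> linarith
    linarith
  obtain ⟨a, ha⟩ := hz2 ρ hmem hρ.1
  have hwa : pt (3 / 2) t - z a = ((3 / 2 - ρ.re : ℝ) : ℂ) := by
    rw [ha]
    apply Complex.ext
    · simp [pt]
    · simp [pt, ht]
  have hre2 : ρ.re = 1 / 2 := by
    have h2 := hw a
    rw [hwa, norm_inv, Complex.norm_real, Real.norm_of_nonneg (by linarith [hρ.2.2.1])] at h2
    have h3 : 0 < 3 / 2 - ρ.re := by linarith [hρ.2.2.1]
    have h4 : 1 ≤ 3 / 2 - ρ.re := by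
      by_contra hlt
      push Not at hlt
      exact absurd h2 (not_le.2 ((one_lt_inv₀ h3).2 hlt))
    linarith
  have hwa1 : (pt (3 / 2) t - z a)⁻¹ = 1 := by
    rw [hwa, hre2]; norm_num
  obtain ⟨b, hba, hzb⟩ := hz4 a (by rw [ha]; exact hder hre2)
  have hwb1 : (pt (3 / 2) t - z b)⁻¹ = 1 := by rw [hzb, hwa1]
  obtain ⟨H, hH⟩ : ∃ H : ℝ, H = (n : ℝ) * (K + 1 : ℕ) / ((2 - L) / 2) + 1 := ⟨_, rfl⟩
  have hL2 : 0 < (2 - L) / 2 := by linarith
  have hH1 : 1 ≤ H := by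
    have : 0 ≤ (n : ℝ) * (K + 1 : ℕ) / ((2 - L) / 2) := by positivity
    linarith
  have h2 := two_points (v := fun i => (pt (3 / 2) t - z i)⁻¹) hw (a := a) (b := b) hba.symm hwa1
    (η := 0) (by simp only [hwb1, sub_self, norm_zero, le_refl]) hL0 hS hH1
  rw [mul_zero, add_zero, one_pow, div_one] at h2
  have h3 : H * ((2 - L) / 2) = (n : ℝ) * (K + 1 : ℕ) + (2 - L) / 2 := by
    rw [hH, add_mul, div_mul_cancel₀ _ hL2.ne', one_mul]
  linarith

/-- small gaps -/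
theorem lower_gap {γ : ℕ → ℝ} (hγ : IsOrdinateSeq γ) {T0 : ℝ} (h : RH T0) {b c : ℝ} (hb0 : b < 0)
    (hb : alpha γ < (b : EReal)) (hc : 0 < c) (hbc : b < -c / 2) {L : ℝ} (hL : L < 2) (T : ℝ) :
    ∃ t ≥ T, ∃ k : ℕ, t ^ c ≤ k ∧ L < ‖primeSum k t‖ := by
  obtain ⟨C, T1, hC, hT1, hz⟩ := primeSum_zeros
  -- conditions at large height
  have hev1 : ∀ᶠ t : ℝ in atTop, C * Real.log t * (10 / t ^ c) < (2 - L) / 2 := by
    have h1 : Tendsto (fun t : ℝ => C * Real.log t * (10 / t ^ c)) atTop (𝓝 0) := by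
      have := (tendsto_log_div hc).const_mul (C * 10)
      rw [mul_zero] at this
      refine this.congr fun t => ?_
      ring
    exact h1.eventually (gt_mem_nhds (by linarith))
  have hev2 : ∀ᶠ t : ℝ in atTop, (L + 2) / 2 < 1 + 1 / (1 + 16 * t ^ (c / 2 + b)) ^ 2 -
      C * (2 * (Real.log t / t ^ (-(c / 2 + b))) + Real.log t / t ^ (c / 2)) := by
    have h1 : Tendsto (fun t : ℝ => t ^ (c / 2 + b)) atTop (𝓝 0) := by
      have := tendsto_rpow_neg_atTop (y := -(c / 2 + b)) (by linarith)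
      rwa [neg_neg] at this
    have h2 : Tendsto (fun t : ℝ => 1 + 1 / (1 + 16 * t ^ (c / 2 + b)) ^ 2 -
        C * (2 * (Real.log t / t ^ (-(c / 2 + b))) + Real.log t / t ^ (c / 2))) atTop
        (𝓝 (1 + 1 / (1 + 16 * 0) ^ 2 - C * (2 * 0 + 0))) := by
      refine Tendsto.sub (Tendsto.const_add _ (Tendsto.div tendsto_const_nhds
        (((h1.const_mul 16).const_add 1).pow 2) (by norm_num))) ?_
      exact (((tendsto_log_div (by linarith)).const_mul 2).add
        (tendsto_log_div (by linarith))).const_mul C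
    exact h2.eventually (lt_mem_nhds (by norm_num; linarith))
  have hev3 : ∀ᶠ t : ℝ in atTop, t ^ b ≤ 1 / 100 := by
    have := tendsto_rpow_neg_atTop (y := -b) (by linarith)
    rw [neg_neg] at this
    exact (this.eventually (gt_mem_nhds (by norm_num : (0 : ℝ) < 1 / 100))).mono fun t ht => ht.le
  have hev : ∀ᶠ t : ℝ in atTop, (max T T1 ≤ t ∧ T0 + 10 < t) ∧
      C * Real.log t * (10 / t ^ c) < (2 - L) / 2 ∧
      ((L + 2) / 2 < 1 + 1 / (1 + 16 * t ^ (c / 2 + b)) ^ 2 -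
      C * (2 * (Real.log t / t ^ (-(c / 2 + b))) + Real.log t / t ^ (c / 2))) ∧
      t ^ b ≤ 1 / 100 :=
    ((eventually_ge_atTop _).and (eventually_gt_atTop _)).and (hev1.and (hev2.and hev3))
  obtain ⟨N, hN, ⟨hT, hT0⟩, he1, he2, he3⟩ :=
    ((gap_upper hγ h hb0 hb).and_eventually ((tendsto_gamma hγ).eventually hev)).exists
  obtain ⟨t, ht⟩ : ∃ t : ℝ, t = γ N := ⟨_, rfl⟩
  obtain ⟨g, hg⟩ : ∃ g : ℝ, g = γ (N + 1) - γ N := ⟨_, rfl⟩
  rw [← hg] at hN
  rw [← ht] at hN hT hT0 he1 he2 he3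
  have hg0 : 0 < g := by
    have := gap_pos hγ h (n := N) (by rw [← ht]; linarith)
    rw [hg]; linarith
  have hg1 : g ≤ 1 / 100 := hN.trans he3
  have htT : T ≤ t := (le_max_left _ _).trans hT
  have htT1 : T1 ≤ t := (le_max_right _ _).trans hT
  have ht100 : 100 ≤ t := hT1.trans htT1
  have ht0 : 0 < t := by linarith
  by_contra hcon
  push Not at hcon
  have hbd := hcon t htT
  obtain ⟨n, z, hn, hz1, hz2, hz3, hz4, hps⟩ := hz t htT1
  have hlog : 0 ≤ Real.log t := Real.log_nonneg (by linarith)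
  have hline : ∀ i, (z i).re = 1 / 2 ∧ deriv riemannZeta (z i) ≠ 0 ∧ t - 10 ≤ (z i).im ∧
      (z i).im ≤ t + 10 := fun i =>
    zero_line h hT0 ht100 (hz1 i).1 (hz1 i).2
  have hw : ∀ i, ‖(pt (3 / 2) t - z i)⁻¹‖ ≤ 1 := fun i => norm_inv_le_one (hline i).1 t
  -- the power sums
  have hS : ∀ j : ℕ, t ^ c + 1 ≤ j → ‖∑ i, ((pt (3 / 2) t - z i)⁻¹) ^ j‖ ≤ (L + 2) / 2 := by
    intro j hj
    have htc : 0 < t ^ c := by positivity
    have hj1 : 1 ≤ j := by
      have : (1 : ℝ) ≤ j := by linarith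
      exact_mod_cast this
    obtain ⟨k, rfl⟩ : ∃ k, j = k + 1 := ⟨j - 1, by omega⟩
    have hk : t ^ c ≤ k := by push_cast at hj; linarith
    have h2 := hbd k hk
    have h3 := abs_le.1 (hps k)
    have h4 : C * Real.log t * (10 / 11) ^ k ≤ C * Real.log t * (10 / t ^ c) :=
      mul_le_mul_of_nonneg_left (geom_small htc hk) (by positivity)
    linarith [h3.1]
  have hL0 : 0 ≤ (L + 2) / 2 := (norm_nonneg _).trans (hS (⌈t ^ c + 1⌉₊) (Nat.le_ceil _))
  -- the two zeros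
  have hza : riemannZeta (pt (1 / 2) t) = 0 := by
    rw [ht]; exact zeta_of_index hγ h (by rw [← ht]; linarith)
  have hzb : riemannZeta (pt (1 / 2) (t + g)) = 0 := by
    have e : t + g = γ (N + 1) := by rw [ht, hg]; ring
    rw [e]
    exact zeta_of_index hγ h (by rw [← e]; linarith)
  obtain ⟨a, ha⟩ := hz2 (pt (1 / 2) t) (pt_mem_disc (by norm_num) (by norm_num)) hza
  obtain ⟨d, hd⟩ := hz2 (pt (1 / 2) (t + g)) (pt_mem_disc (by norm_num) (by
    have : (t + g - t) ^ 2 ≤ 1 := by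
      rw [add_sub_cancel_left]
      exact pow_le_one₀ hg0.le (by linarith)
    norm_num
    linarith)) hzb
  have had : a ≠ d := by
    rintro rfl
    have := congrArg Complex.im (ha.symm.trans hd)
    rw [pt_im, pt_im] at this
    linarith
  have hwa : (pt (3 / 2) t - z a)⁻¹ = 1 := by
    have : pt (3 / 2) t - z a = 1 := by
      rw [ha]
      apply Complex.ext
      · simp [pt]; norm_num
      · simp [pt]
    rw [this, inv_one]
  have hwd : (pt (3 / 2) t - z d)⁻¹ = (1 - g * I : ℂ)⁻¹ := by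
    have : pt (3 / 2) t - z d = 1 - g * I := by
      rw [hd]
      apply Complex.ext
      · simp [pt]; norm_num
      · simp [pt]
    rw [this]
  obtain ⟨m, hm1, hmg, hmc⟩ := close_pow hg0 hg1
  have hm0 : (0 : ℝ) < m := by exact_mod_cast hm1
  obtain ⟨J0, hJ0⟩ : ∃ J0 : ℕ, J0 = ⌈(t ^ c + 1) / m⌉₊ := ⟨_, rfl⟩
  have hSm : ∀ j ≥ J0, ‖∑ i, (((pt (3 / 2) t - z i)⁻¹) ^ m) ^ j‖ ≤ (L + 2) / 2 := by
    intro j hj
    have h2 : (t ^ c + 1) / m ≤ j := by
      refine (Nat.le_ceil _).trans ?_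
      rw [← hJ0]; exact_mod_cast hj
    rw [div_le_iff₀ hm0] at h2
    have h3 := hS (m * j) (by push_cast; linarith)
    have e : ∑ i, (((pt (3 / 2) t - z i)⁻¹) ^ m) ^ j = ∑ i, ((pt (3 / 2) t - z i)⁻¹) ^ (m * j) :=
      Finset.sum_congr rfl fun i _ => (pow_mul _ _ _).symm
    rw [e]
    exact h3
  obtain ⟨H, hH⟩ : ∃ H : ℝ, H = t ^ (c / 2) := ⟨_, rfl⟩
  have hH1 : 1 ≤ H := by rw [hH]; exact Real.one_le_rpow (by linarith) (by linarith)
  have hH0 : 0 < H := by linarith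
  have h2 := two_points (v := fun i => ((pt (3 / 2) t - z i)⁻¹) ^ m)
    (fun i => by rw [norm_pow]; exact pow_le_one₀ (norm_nonneg _) (hw i)) (a := a) (b := d) had
    (by simp only [hwa, one_pow]) (η := 16 * g) (by simp only [hwd]; exact hmc) hL0 hSm hH1
  -- numerical consequences
  have hJ0' : (J0 : ℝ) ≤ 2 * t ^ (c + b) + 1 := by
    have h3 : (J0 : ℝ) ≤ (t ^ c + 1) / m + 1 := by
      rw [hJ0]; exact (Nat.ceil_lt_add_one (by positivity)).le
    have h4 : (t ^ c + 1) / m ≤ (t ^ c + 1) * g := by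
      rw [div_le_iff₀ hm0]
      have h5 : 1 ≤ g * m := by
        rw [div_le_iff₀ hg0] at hmg
        linarith
      have h6 : 0 ≤ t ^ c + 1 := by positivity
      have := mul_le_mul_of_nonneg_left h5 h6
      linarith
    have h5 : (t ^ c + 1) * g ≤ (2 * t ^ c) * t ^ b := by
      have h6 : 1 ≤ t ^ c := Real.one_le_rpow (by linarith) hc.le
      exact mul_le_mul (by linarith) hN hg0.le (by positivity)
    have h6 : (2 * t ^ c) * t ^ b = 2 * t ^ (c + b) := by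
      rw [Real.rpow_add ht0]; ring
    linarith
  have hHg : H * (16 * g) ≤ 16 * t ^ (c / 2 + b) := by
    rw [hH, Real.rpow_add ht0]
    have := mul_le_mul_of_nonneg_left hN (by positivity : 0 ≤ t ^ (c / 2))
    linarith
  have h3 : H * (1 / (1 + 16 * t ^ (c / 2 + b)) ^ 2) ≤ H / (1 + H * (16 * g)) ^ 2 := by
    rw [div_eq_mul_one_div H]
    refine mul_le_mul_of_nonneg_left ?_ hH0.le
    apply one_div_le_one_div_of_le (by positivity)
    exact pow_le_pow_left₀ (by positivity) (by linarith) 2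
  have h4 : (n : ℝ) * J0 ≤ H * (C * (2 * (Real.log t / t ^ (-(c / 2 + b))) +
      Real.log t / t ^ (c / 2))) := by
    have h5 : (n : ℝ) * J0 ≤ C * Real.log t * (2 * t ^ (c + b) + 1) :=
      mul_le_mul hn hJ0' (Nat.cast_nonneg _) (by positivity)
    refine h5.trans (le_of_eq ?_)
    have e1 : t ^ (c + b) = H / t ^ (-(c / 2 + b)) := by
      rw [hH, ← Real.rpow_sub ht0]
      congr 1
      ring
    rw [e1, ← hH]
    have e2 : t ^ (-(c / 2 + b)) ≠ 0 := (Real.rpow_pos_of_pos ht0 _).ne'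
    field_simp
  have h5 := mul_lt_mul_of_pos_left he2 hH0
  have h6 : H * (1 + 1 / (1 + 16 * t ^ (c / 2 + b)) ^ 2 -
      C * (2 * (Real.log t / t ^ (-(c / 2 + b))) + Real.log t / t ^ (c / 2))) =
      H + H * (1 / (1 + 16 * t ^ (c / 2 + b)) ^ 2) -
      H * (C * (2 * (Real.log t / t ^ (-(c / 2 + b))) + Real.log t / t ^ (c / 2))) := by ring
  rw [h6] at h5
  linarith

end Pool.Agent.ZP20
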