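import Pool.Agent.Lib.MP_af3d17_nt_h98.Near
import Pool.Agent.Lib.MP_af3d17_nt_h98.SeqDefs

/-!
# MP_af3d17_nt: prime sums and power sums over the zeros
-/

set_option autoImplicit false

namespace Pool.Agent.ZP20

open Finset Complex Filter Topology Metric
open Pool.Agent.ZP

/-- `(1 / k!) ∑ Λ(n) (log n)^k n^(-3/2-it)` -/
noncomputable def primeSum (k : ℕ) (t : ℝ) : ℂ :=
  (∑' n : ℕ, (ArithmeticFunction.vonMangoldt n : ℂ) * (Real.log n : ℂ) ^ k /
    (n : ℂ) ^ (3 / 2 + t * I)) / (k.factorial : ℂ)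

lemma pt_eq (t : ℝ) : pt (3 / 2) t = 3 / 2 + t * I := by
  apply Complex.ext
  · simp [pt]
  · simp [pt]

lemma logMul_iterate (f : ℕ → ℂ) (k n : ℕ) :
    (LSeries.logMul^[k] f) n = Complex.log n ^ k * f n := by
  induction k with
  | zero => simp
  | succ k ih =>
    rw [Function.iterate_succ_apply', LSeries.logMul, ih]
    ring

lemma tsum_eq (k : ℕ) {s : ℂ} (hs : 1 < s.re) :
    ∑' n : ℕ, (ArithmeticFunction.vonMangoldt n : ℂ) * (Real.log n : ℂ) ^ k / (n : ℂ) ^ s =
      (-1) ^ (k + 1) * iteratedDeriv k (logDeriv riemannZeta) s := by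
  have hs0 : s ≠ 0 := by
    rintro rfl
    simp at hs
    linarith
  set f : ℕ → ℂ := fun n => (ArithmeticFunction.vonMangoldt n : ℂ) with hf
  have habs : LSeries.abscissaOfAbsConv f ≤ (1 : ℝ) :=
    LSeries.abscissaOfAbsConv_le_of_forall_lt_LSeriesSummable fun y hy =>
      ArithmeticFunction.LSeriesSummable_vonMangoldt (by simpa using hy)
  have habs' : LSeries.abscissaOfAbsConv f < s.re :=
    lt_of_le_of_lt habs (by exact_mod_cast hs)
  have h1 := LSeries_iteratedDeriv k habs'
  have h2 : LSeries f =ᶠ[𝓝 s] fun w => -logDeriv riemannZeta w := by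
    have hopen : IsOpen {w : ℂ | 1 < w.re} := isOpen_lt continuous_const Complex.continuous_re
    filter_upwards [hopen.mem_nhds hs] with w hw
    rw [logDeriv_apply, ← neg_div]
    exact ArithmeticFunction.LSeries_vonMangoldt_eq_deriv_riemannZeta_div hw
  rw [h2.iteratedDeriv_eq, iteratedDeriv_fun_neg] at h1
  have h3 : LSeries (LSeries.logMul^[k] f) s =
      ∑' n : ℕ, (ArithmeticFunction.vonMangoldt n : ℂ) * (Real.log n : ℂ) ^ k / (n : ℂ) ^ s := by
    rw [LSeries]
    refine tsum_congr fun n => ?_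
    rw [LSeries.term_of_ne_zero' hs0, logMul_iterate, Complex.natCast_log]
    simp only [hf]
    ring
  rw [h3] at h1
  have h4 : ((-1 : ℂ) ^ k) * (-1) ^ k = 1 := by
    rw [← mul_pow]; norm_num
  calc ∑' n : ℕ, (ArithmeticFunction.vonMangoldt n : ℂ) * (Real.log n : ℂ) ^ k / (n : ℂ) ^ s
      = ((-1 : ℂ) ^ k * (-1) ^ k) * ∑' n : ℕ, (ArithmeticFunction.vonMangoldt n : ℂ) *
          (Real.log n : ℂ) ^ k / (n : ℂ) ^ s := by rw [h4, one_mul]
    _ = (-1) ^ k * (-iteratedDeriv k (logDeriv riemannZeta) s) := by rw [h1]; ring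
    _ = _ := by rw [pow_succ]; ring

/-- the derivatives of `1 / (s - z)` -/
lemma iteratedDeriv_inv_sub (z : ℂ) (k : ℕ) : ∀ s : ℂ, s ≠ z →
    iteratedDeriv k (fun w => 1 / (w - z)) s = (-1) ^ k * k.factorial * ((s - z)⁻¹) ^ (k + 1) := by
  induction k with
  | zero => intro s _; simp
  | succ k ih =>
    intro s hs
    rw [iteratedDeriv_succ]
    have hev : iteratedDeriv k (fun w => 1 / (w - z)) =ᶠ[𝓝 s]
        fun s => (-1) ^ k * k.factorial * ((s - z)⁻¹) ^ (k + 1) := by
      filter_upwards [isOpen_ne.mem_nhds hs] with w hw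
      exact ih w hw
    rw [hev.deriv_eq]
    have hsz : s - z ≠ 0 := sub_ne_zero.2 hs
    have h1 : HasDerivAt (fun w : ℂ => (w - z)⁻¹) (-1 / (s - z) ^ 2) s :=
      ((hasDerivAt_id' s).sub_const z).fun_inv hsz
    have h2 := (h1.fun_pow (k + 1)).const_mul ((-1 : ℂ) ^ k * k.factorial)
    rw [h2.deriv]
    have e : (-1 : ℂ) / (s - z) ^ 2 = -((s - z)⁻¹ ^ 2) := by
      rw [inv_pow, neg_div, one_div]
    rw [Nat.factorial_succ, e, Nat.add_sub_cancel]
    push_cast
    ring

/-- the prime sum is a power sum over the zeros, up to a small error -/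
theorem primeSum_zeros : ∃ C T1 : ℝ, 0 < C ∧ 100 ≤ T1 ∧ ∀ t ≥ T1,
    ∃ (n : ℕ) (z : Fin n → ℂ), (n : ℝ) ≤ C * Real.log t ∧
      (∀ i, z i ∈ closedBall (pt 10 t) (97 / 10) ∧ riemannZeta (z i) = 0) ∧
      (∀ s ∈ closedBall (pt 10 t) (97 / 10), riemannZeta s = 0 → ∃ i, z i = s) ∧
      (∀ i j, i ≠ j → z i = z j → deriv riemannZeta (z i) = 0) ∧
      (∀ i, deriv riemannZeta (z i) = 0 → ∃ j, j ≠ i ∧ z j = z i) ∧
      ∀ k : ℕ, |‖primeSum k t‖ - ‖∑ i, ((pt (3 / 2) t - z i)⁻¹) ^ (k + 1)‖| ≤
        C * Real.log t * (10 / 11) ^ k := by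
  obtain ⟨C, T1, hC, hT1, h⟩ := local_zeta
  refine ⟨C, T1, hC, hT1, fun t ht => ?_⟩
  obtain ⟨n, z, g, hn, hz, hg, hfac, hg0, hld⟩ := h t ht
  have ht0 : 100 ≤ t := hT1.trans ht
  have himpos : ∀ s ∈ closedBall (pt 10 t) (98 / 10), 0 < s.im := by
    intro s hs
    have := (mem_disc hs).2.2.1
    linarith
  refine ⟨n, z, hn, hz, ?_, ?_, ?_, ?_⟩
  · intro s hs hs0
    have h1 := hfac s (closedBall_subset_closedBall (by norm_num) hs)
    rw [hs0] at h1
    have h2 := (mul_eq_zero.1 h1.symm).resolve_right (hg0 s hs)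
    obtain ⟨i, -, hi⟩ := Finset.prod_eq_zero_iff.1 h2
    exact ⟨i, (sub_eq_zero.1 hi).symm⟩
  · -- two equal zeros
    intro i j hij hzz
    have hmem : z i ∈ ball (pt 10 t) (98 / 10) := by
      have := (hz i).1
      rw [mem_closedBall] at this
      rw [mem_ball]; linarith
    have hev : riemannZeta =ᶠ[𝓝 (z i)] fun s => (s - z i) * ((∏ l ∈ univ.erase i, (s - z l)) * g s) := by
      filter_upwards [isOpen_ball.mem_nhds hmem] with w hw
      rw [hfac w (ball_subset_closedBall hw), ← Finset.mul_prod_erase univ _ (mem_univ i), mul_assoc]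
    rw [hev.deriv_eq]
    have hd : DifferentiableAt ℂ (fun s => (∏ l ∈ univ.erase i, (s - z l)) * g s) (z i) := by
      refine DifferentiableAt.mul (by fun_prop) ?_
      exact (hg _ (ball_subset_closedBall hmem)).differentiableAt
    have h1 : HasDerivAt (fun s => s - z i) 1 (z i) := (hasDerivAt_id' _).sub_const _
    rw [(h1.fun_mul hd.hasDerivAt).deriv, sub_self, zero_mul, add_zero, one_mul]
    have h2 : ∏ l ∈ univ.erase i, (z i - z l) = 0 :=
      Finset.prod_eq_zero (mem_erase.2 ⟨hij.symm, mem_univ j⟩) (by rw [hzz, sub_self])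
    rw [h2, zero_mul]
  · intro i hi
    by_contra hcon
    push Not at hcon
    have hmem : z i ∈ ball (pt 10 t) (98 / 10) := by
      have := (hz i).1
      rw [mem_closedBall] at this
      rw [mem_ball]; linarith
    have hev : riemannZeta =ᶠ[𝓝 (z i)] fun s => (s - z i) * ((∏ l ∈ univ.erase i, (s - z l)) * g s) := by
      filter_upwards [isOpen_ball.mem_nhds hmem] with w hw
      rw [hfac w (ball_subset_closedBall hw), ← Finset.mul_prod_erase univ _ (mem_univ i), mul_assoc]
    rw [hev.deriv_eq] at hi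
    have hd : DifferentiableAt ℂ (fun s => (∏ l ∈ univ.erase i, (s - z l)) * g s) (z i) := by
      refine DifferentiableAt.mul (by fun_prop) ?_
      exact (hg _ (ball_subset_closedBall hmem)).differentiableAt
    have h1 : HasDerivAt (fun s => s - z i) 1 (z i) := (hasDerivAt_id' _).sub_const _
    rw [(h1.fun_mul hd.hasDerivAt).deriv, sub_self, zero_mul, add_zero, one_mul] at hi
    rcases mul_eq_zero.1 hi with h2 | h2
    · obtain ⟨l, hl, h3⟩ := Finset.prod_eq_zero_iff.1 h2
      exact hcon l (mem_erase.1 hl).1 (sub_eq_zero.1 h3).symm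
    · exact hg0 _ (hz i).1 h2
  · intro k
    set s0 := pt (3 / 2) t with hs0
    have hsub : closedBall s0 (11 / 10) ⊆ closedBall (pt 10 t) (96 / 10) := by
      refine closedBall_subset_closedBall' ?_
      rw [dist_eq_norm]
      have e : s0 - pt 10 t = ((-17 / 2 : ℝ) : ℂ) := by
        apply Complex.ext
        · simp [hs0, pt]; norm_num
        · simp [hs0, pt]
      rw [e, Complex.norm_real, Real.norm_eq_abs]
      norm_num
    have hs0mem : s0 ∈ closedBall (pt 10 t) (96 / 10) := hsub (mem_closedBall_self (by norm_num))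
    have hs0re : 1 < s0.re := by rw [hs0, pt_re]; norm_num
    have hzs0 : riemannZeta s0 ≠ 0 := riemannZeta_ne_zero_of_one_le_re hs0re.le
    have hne : ∀ i, s0 ≠ z i := by
      intro i hi
      apply hzs0
      rw [hi]
      exact (hz i).2
    -- the local formula
    have hev : logDeriv riemannZeta =ᶠ[𝓝 s0] fun s => ∑ i, 1 / (s - z i) + logDeriv g s := by
      have hopen : IsOpen {w : ℂ | 1 < w.re} := isOpen_lt continuous_const Complex.continuous_re
      have hmem2 : s0 ∈ ball (pt 10 t) (97 / 10) := by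
        rw [mem_closedBall] at hs0mem
        rw [mem_ball]; linarith
      filter_upwards [hopen.mem_nhds hs0re, isOpen_ball.mem_nhds hmem2] with w hw hw2
      exact A.logDeriv_fact hg hfac (ball_subset_closedBall hw2)
        (riemannZeta_ne_zero_of_one_le_re (le_of_lt hw))
    have hgan : ∀ s ∈ closedBall (pt 10 t) (96 / 10), AnalyticAt ℂ (logDeriv g) s := by
      intro s hs
      have h1 := hg s (closedBall_subset_closedBall (by norm_num) hs)
      have h2 := hg0 s (closedBall_subset_closedBall (by norm_num) hs)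
      exact h1.deriv.div h1 h2
    have hsum : iteratedDeriv k (logDeriv riemannZeta) s0 =
        (-1) ^ k * k.factorial * ∑ i, ((s0 - z i)⁻¹) ^ (k + 1) + iteratedDeriv k (logDeriv g) s0 := by
      rw [hev.iteratedDeriv_eq]
      have hc : ∀ i ∈ (univ : Finset (Fin n)), ContDiffAt ℂ k (fun s => 1 / (s - z i)) s0 := by
        intro i _
        exact contDiffAt_const.div (contDiffAt_id.sub contDiffAt_const) (sub_ne_zero.2 (hne i))
      have hc2 : ContDiffAt ℂ k (logDeriv g) s0 := (hgan s0 hs0mem).contDiffAt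
      rw [iteratedDeriv_fun_add (ContDiffAt.sum hc) hc2, iteratedDeriv_fun_sum hc, Finset.mul_sum]
      congr 1
      exact Finset.sum_congr rfl fun i _ => iteratedDeriv_inv_sub (z i) k s0 (hne i)
    have hcauchy : ‖iteratedDeriv k (logDeriv g) s0‖ ≤
        k.factorial * (C * Real.log t) / (11 / 10) ^ k := by
      refine Complex.norm_iteratedDeriv_le_of_forall_mem_sphere_norm_le k (by norm_num) ?_ ?_
      · refine DifferentiableOn.diffContOnCl ?_
        rw [closure_ball _ (by norm_num)]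
        intro w hw
        exact (hgan w (hsub hw)).differentiableAt.differentiableWithinAt
      · intro w hw
        exact hld w (hsub (sphere_subset_closedBall hw))
    have hfact : (0 : ℝ) < k.factorial := by exact_mod_cast k.factorial_pos
    have hfact' : ((k.factorial : ℝ) : ℂ) ≠ 0 := by exact_mod_cast hfact.ne'
    have hps : primeSum k t = -(∑ i, ((s0 - z i)⁻¹) ^ (k + 1)) +
        (-1) ^ (k + 1) * iteratedDeriv k (logDeriv g) s0 / k.factorial := by
      rw [primeSum, ← pt_eq, tsum_eq k (by rw [pt_re]; norm_num), ← hs0, hsum]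
      have h4 : ((-1 : ℂ) ^ k) * (-1) ^ k = 1 := by
        rw [← mul_pow]; norm_num
      have h5 : ((k.factorial : ℕ) : ℂ) ≠ 0 := by exact_mod_cast hfact.ne'
      generalize ∑ i, ((s0 - z i)⁻¹) ^ (k + 1) = S
      have e1 : (-1 : ℂ) ^ (k + 1) * ((-1) ^ k * k.factorial * S) / k.factorial = -S := by
        rw [pow_succ]
        have e2 : (-1 : ℂ) ^ k * -1 * ((-1) ^ k * k.factorial * S) =
            -(((-1) ^ k * (-1) ^ k) * (S * k.factorial)) := by ring
        rw [e2, h4, one_mul, neg_div, mul_div_cancel_right₀ _ h5]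
      rw [mul_add, add_div, e1]
    have herr : ‖(-1 : ℂ) ^ (k + 1) * iteratedDeriv k (logDeriv g) s0 / k.factorial‖ ≤
        C * Real.log t * (10 / 11) ^ k := by
      rw [norm_div, norm_mul, norm_pow, norm_neg, norm_one, one_pow, one_mul,
        Complex.norm_natCast, div_le_iff₀ hfact]
      refine hcauchy.trans (le_of_eq ?_)
      have : (10 / 11 : ℝ) ^ k = 1 / (11 / 10) ^ k := by
        rw [← one_div_pow]; norm_num
      rw [this]
      ring
    have h6 : ‖-(∑ i, ((s0 - z i)⁻¹) ^ (k + 1))‖ = ‖∑ i, ((s0 - z i)⁻¹) ^ (k + 1)‖ := norm_neg _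
    rw [hps, ← h6]
    refine (abs_norm_sub_norm_le _ _).trans ?_
    rw [add_sub_cancel_left]
    exact herr

end Pool.Agent.ZP20
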