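import Pool.Agent.Lib.MP_af3d17_nt_h20.Taylor
import Pool.Agent.Lib.MP_af3d17_nt_h98.Seq

/-!
# MP_af3d17_nt: the prime sums when the gaps are not too small
-/

set_option autoImplicit false

namespace Pool.Agent.ZP20

open Finset Complex Filter Topology Metric
open Pool.Agent.ZP

/-- the zeros in the disc, at large height -/
lemma zero_line {T0 : ℝ} (h : RH T0) {t : ℝ} (ht : T0 + 10 < t) (ht0 : 100 ≤ t) {z : ℂ}
    (hz : z ∈ closedBall (pt 10 t) (97 / 10)) (h0 : riemannZeta z = 0) :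
    z.re = 1 / 2 ∧ deriv riemannZeta z ≠ 0 ∧ t - 10 ≤ z.im ∧ z.im ≤ t + 10 := by
  obtain ⟨h1, h2, h3, h4⟩ := mem_disc hz
  have hup : IsUpperZero z := by
    refine ⟨h0, by linarith, ?_, by linarith⟩
    by_contra hcon
    exact riemannZeta_ne_zero_of_one_le_re (not_lt.1 hcon) h0
  obtain ⟨h5, h6⟩ := h z hup (by linarith)
  exact ⟨h5, h6, by linarith, by linarith⟩

lemma norm_sq_line {z : ℂ} (hz : z.re = 1 / 2) (t : ℝ) :
    ‖pt (3 / 2) t - z‖ ^ 2 = 1 + (t - z.im) ^ 2 := by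
  rw [← Complex.normSq_eq_norm_sq, Complex.normSq_apply, Complex.sub_re, Complex.sub_im, pt_re,
    pt_im, hz]
  ring

lemma norm_inv_le_one {z : ℂ} (hz : z.re = 1 / 2) (t : ℝ) : ‖(pt (3 / 2) t - z)⁻¹‖ ≤ 1 := by
  rw [norm_inv]
  apply inv_le_one_of_one_le₀
  have h1 := norm_sq_line hz t
  have h2 : (1 : ℝ) ^ 2 ≤ ‖pt (3 / 2) t - z‖ ^ 2 := by
    rw [h1]; linarith [sq_nonneg (t - z.im)]
  exact le_of_sq_le_sq h2 (norm_nonneg _)
where
  le_of_sq_le_sq {a b : ℝ} (h : a ^ 2 ≤ b ^ 2) (hb : 0 ≤ b) : a ≤ b := abs_le_of_sq_le_sq' h hb |>.2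

/-- terms of zeros which are not very close -/
lemma far_term {z : ℂ} (hz : z.re = 1 / 2) {t d : ℝ} (hd : 0 < d) (hfar : d / 2 ≤ |t - z.im|)
    {k : ℕ} {x : ℝ} (hx : 0 < x) (hk : x ^ 2 ≤ k) :
    ‖((pt (3 / 2) t - z)⁻¹) ^ (k + 1)‖ ≤ 2 / (x * d) := by
  have h1 := norm_sq_line hz t
  have hk0 : (0 : ℝ) ≤ k := Nat.cast_nonneg k
  have hu : d ^ 2 / 4 ≤ (t - z.im) ^ 2 := by
    rw [← sq_abs (t - z.im)]
    have := pow_le_pow_left₀ (by positivity) hfar 2
    calc d ^ 2 / 4 = (d / 2) ^ 2 := by ring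
      _ ≤ _ := this
  have h2 : (k : ℝ) * (d ^ 2 / 4) ≤ (‖pt (3 / 2) t - z‖ ^ 2) ^ (k + 1) := by
    have h3 := one_add_mul_le_pow (a := (t - z.im) ^ 2)
      (le_trans (by norm_num) (sq_nonneg (t - z.im))) (k + 1)
    rw [h1]
    refine le_trans ?_ h3
    push_cast
    have h4 := mul_le_mul_of_nonneg_left hu hk0
    linarith [sq_nonneg (t - z.im)]
  have h5 : (x * d / 2) ^ 2 ≤ (‖pt (3 / 2) t - z‖ ^ (k + 1)) ^ 2 := by
    have e : (‖pt (3 / 2) t - z‖ ^ (k + 1)) ^ 2 = (‖pt (3 / 2) t - z‖ ^ 2) ^ (k + 1) := by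
      rw [← pow_mul, ← pow_mul, mul_comm]
    rw [e]
    refine le_trans ?_ h2
    have h6 := mul_le_mul_of_nonneg_right hk (by positivity : 0 ≤ d ^ 2 / 4)
    calc (x * d / 2) ^ 2 = x ^ 2 * (d ^ 2 / 4) := by ring
      _ ≤ _ := h6
  have h7 : x * d / 2 ≤ ‖pt (3 / 2) t - z‖ ^ (k + 1) :=
    (abs_le_of_sq_le_sq' h5 (by positivity)).2
  rw [norm_pow, norm_inv, inv_pow]
  have h8 : (‖pt (3 / 2) t - z‖ ^ (k + 1))⁻¹ ≤ (x * d / 2)⁻¹ :=
    inv_anti₀ (by positivity) h7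
  refine h8.trans (le_of_eq ?_)
  rw [inv_div]

/-- two zeros on the line are separated -/
lemma separated {γ : ℕ → ℝ} (hγ : IsOrdinateSeq γ) {T0 : ℝ} (h : RH T0) {a : ℝ} (ha0 : a < 0)
    (ha : (a : EReal) < alpha γ) : ∃ T2 : ℝ, 100 ≤ T2 ∧ T0 + 10 < T2 ∧ ∀ t ≥ T2, ∀ x y : ℝ,
      t - 10 ≤ x → x < y → y ≤ t + 10 → riemannZeta (pt (1 / 2) x) = 0 →
      riemannZeta (pt (1 / 2) y) = 0 → (2 * t) ^ a ≤ y - x := by
  obtain ⟨N, hN⟩ := eventually_atTop.1 (gap_lower hγ h ha)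
  refine ⟨max 100 (max (T0 + 11) (γ N + 11)), le_max_left _ _, ?_, fun t ht x y hx hxy hy h1 h2 => ?_⟩
  · have := (le_max_left (T0 + 11) (γ N + 11)).trans (le_max_right 100 _)
    linarith
  have ht0 : 100 ≤ t := (le_max_left _ _).trans ht
  have ht1 : γ N + 11 ≤ t := ((le_max_right _ _).trans (le_max_right _ _)).trans ht
  obtain ⟨n, hn⟩ := index_of_zeta hγ (by linarith) h1
  obtain ⟨m, hm⟩ := index_of_zeta hγ (by linarith) h2
  have hnm : n < m := lt_index hγ (by rw [hn, hm]; exact hxy)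
  have hNn : N ≤ n := (lt_index hγ (by rw [hn]; linarith)).le
  have h3 := hN n hNn
  have h4 : γ (n + 1) ≤ γ m := hγ.mono hnm
  rw [hn] at h3
  rw [hm] at h4
  have h5 : (2 * t) ^ a ≤ x ^ a :=
    Real.rpow_le_rpow_of_nonpos (by linarith) (by linarith) ha0.le
  linarith

lemma geom_small {k : ℕ} {y : ℝ} (hy : 0 < y) (hk : y ≤ k) : (10 / 11 : ℝ) ^ k ≤ 10 / y := by
  have h1 := one_add_mul_le_pow (a := (1 / 10 : ℝ)) (by norm_num) k
  have h2 : y / 10 ≤ (11 / 10 : ℝ) ^ k := by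
    have : (1 : ℝ) + 1 / 10 = 11 / 10 := by norm_num
    rw [this] at h1
    linarith
  have h3 : (10 / 11 : ℝ) ^ k = ((11 / 10) ^ k)⁻¹ := by
    rw [← inv_pow]; norm_num
  rw [h3]
  refine (inv_anti₀ (by positivity) h2).trans (le_of_eq ?_)
  rw [inv_div]

/-- the error term -/
noncomputable def Err (C a c t : ℝ) : ℝ :=
  C * Real.log t * (2 / (t ^ (c / 2) * (2 * t) ^ a)) + C * Real.log t * (10 / t ^ c)

lemma tendsto_log_div {x : ℝ} (hx : 0 < x) :
    Tendsto (fun t : ℝ => Real.log t / t ^ x) atTop (𝓝 0) :=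
  (isLittleO_log_rpow_atTop hx).tendsto_div_nhds_zero

lemma tendsto_Err (C : ℝ) {a c : ℝ} (hc : 0 < c) (hac : -c < 2 * a) :
    Tendsto (Err C a c) atTop (𝓝 0) := by
  have h1 := (tendsto_log_div (show 0 < c / 2 + a by linarith)).const_mul (C * 2 / 2 ^ a)
  have h2 := (tendsto_log_div hc).const_mul (C * 10)
  have h3 := h1.add h2
  rw [mul_zero, mul_zero, add_zero] at h3
  refine h3.congr' ?_
  filter_upwards [eventually_gt_atTop 0] with t ht
  rw [Err, Real.mul_rpow (by norm_num) ht.le, Real.rpow_add ht]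
  have e1 : t ^ (c / 2) ≠ 0 := (Real.rpow_pos_of_pos ht _).ne'
  have e2 : t ^ a ≠ 0 := (Real.rpow_pos_of_pos ht _).ne'
  have e3 : (2 : ℝ) ^ a ≠ 0 := (Real.rpow_pos_of_pos (by norm_num) _).ne'
  have e4 : t ^ c ≠ 0 := (Real.rpow_pos_of_pos ht _).ne'
  field_simp

/-- upper bound, and lower bound at the ordinates -/
theorem upper {γ : ℕ → ℝ} (hγ : IsOrdinateSeq γ) {T0 : ℝ} (h : RH T0) {a c : ℝ} (ha0 : a < 0)
    (ha : (a : EReal) < alpha γ) :
    ∃ C T : ℝ, ∀ t ≥ T, ∀ k : ℕ, t ^ c ≤ k → ‖primeSum k t‖ ≤ 1 + Err C a c t ∧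
      (riemannZeta (pt (1 / 2) t) = 0 → 1 - Err C a c t ≤ ‖primeSum k t‖) := by
  obtain ⟨C, T1, hC, hT1, hz⟩ := primeSum_zeros
  obtain ⟨T2, hT2, hT20, hsep⟩ := separated hγ h ha0 ha
  refine ⟨C, max T1 T2, fun t ht k hk => ?_⟩
  have ht1 : T1 ≤ t := (le_max_left _ _).trans ht
  have ht2 : T2 ≤ t := (le_max_right _ _).trans ht
  have ht100 : 100 ≤ t := hT2.trans ht2
  have ht0 : 0 < t := by linarith
  obtain ⟨n, z, hn, hz1, hz2, hz3, hz4, hps⟩ := hz t ht1
  have hline : ∀ i, (z i).re = 1 / 2 ∧ deriv riemannZeta (z i) ≠ 0 ∧ t - 10 ≤ (z i).im ∧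
      (z i).im ≤ t + 10 := fun i =>
    zero_line h (by linarith) ht100 (hz1 i).1 (hz1 i).2
  have hpt : ∀ i, z i = pt (1 / 2) (z i).im := fun i => Complex.ext (hline i).1 rfl
  obtain ⟨d, hd⟩ : ∃ d : ℝ, d = (2 * t) ^ a := ⟨_, rfl⟩
  have hd0 : 0 < d := by rw [hd]; positivity
  have hinj : ∀ i j, i ≠ j → z i ≠ z j := fun i j hij hzz =>
    (hline i).2.1 (hz3 i j hij hzz)
  have hclose : ∀ i j, |t - (z i).im| < d / 2 → |t - (z j).im| < d / 2 → i = j := by
    intro i j hi hj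
    by_contra hij
    have hne : (z i).im ≠ (z j).im := fun he => hinj i j hij (by rw [hpt i, hpt j, he])
    have h1 := abs_lt.1 hi
    have h2 := abs_lt.1 hj
    have hzi : riemannZeta (pt (1 / 2) (z i).im) = 0 := by rw [← hpt i]; exact (hz1 i).2
    have hzj : riemannZeta (pt (1 / 2) (z j).im) = 0 := by rw [← hpt j]; exact (hz1 j).2
    rcases lt_or_gt_of_ne hne with hlt | hlt
    · have := hsep t ht2 _ _ (hline i).2.2.1 hlt (hline j).2.2.2 hzi hzj
      linarith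
    · have := hsep t ht2 _ _ (hline j).2.2.1 hlt (hline i).2.2.2 hzj hzi
      linarith
  -- the terms
  obtain ⟨x, hx⟩ : ∃ x : ℝ, x = t ^ (c / 2) := ⟨_, rfl⟩
  have hx0 : 0 < x := by rw [hx]; positivity
  have hx2 : x ^ 2 = t ^ c := by
    rw [hx, ← Real.rpow_natCast, ← Real.rpow_mul ht0.le]
    congr 1
    push_cast
    ring
  obtain ⟨E, hE⟩ : ∃ E : ℝ, E = 2 / (x * d) := ⟨_, rfl⟩
  have hE0 : 0 ≤ E := by rw [hE]; positivity
  have hfar : ∀ i, d / 2 ≤ |t - (z i).im| → ‖((pt (3 / 2) t - z i)⁻¹) ^ (k + 1)‖ ≤ E := by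
    intro i hi
    rw [hE]
    exact far_term (hline i).1 hd0 hi hx0 (by rw [hx2]; exact hk)
  have hone : ∀ i, ‖((pt (3 / 2) t - z i)⁻¹) ^ (k + 1)‖ ≤ 1 := by
    intro i
    rw [norm_pow]
    exact pow_le_one₀ (norm_nonneg _) (norm_inv_le_one (hline i).1 t)
  have hlog : 0 ≤ Real.log t := Real.log_nonneg (by linarith)
  have hnE : (n : ℝ) * E ≤ C * Real.log t * E := mul_le_mul_of_nonneg_right hn hE0
  have herr : C * Real.log t * (10 / 11) ^ k ≤ C * Real.log t * (10 / t ^ c) :=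
    mul_le_mul_of_nonneg_left (geom_small (by positivity) hk) (by positivity)
  have hErr : Err C a c t = C * Real.log t * E + C * Real.log t * (10 / t ^ c) := by
    rw [Err, hE, hx, hd]
  have habs := abs_le.1 (hps k)
  constructor
  · -- upper bound
    have hS : ‖∑ i, ((pt (3 / 2) t - z i)⁻¹) ^ (k + 1)‖ ≤ 1 + n * E := by
      by_cases hex : ∃ i0, |t - (z i0).im| < d / 2
      · obtain ⟨i0, hi0⟩ := hex
        rw [← Finset.add_sum_erase univ _ (mem_univ i0)]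
        refine (norm_add_le _ _).trans (add_le_add (hone i0) ?_)
        refine (norm_sum_le _ _).trans ?_
        have h1 : ∑ i ∈ univ.erase i0, ‖((pt (3 / 2) t - z i)⁻¹) ^ (k + 1)‖ ≤
            ∑ _i ∈ univ.erase i0, E := by
          refine Finset.sum_le_sum fun i hi => hfar i ?_
          by_contra hcon
          exact (mem_erase.1 hi).1 (hclose i i0 (not_le.1 hcon) hi0)
        refine h1.trans ?_
        rw [Finset.sum_const, nsmul_eq_mul]
        refine mul_le_mul_of_nonneg_right ?_ hE0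
        have h2 : (univ.erase i0 : Finset (Fin n)).card ≤ n := by
          refine (Finset.card_erase_le).trans ?_
          rw [Finset.card_univ, Fintype.card_fin]
        exact_mod_cast h2
      · push Not at hex
        refine (norm_sum_le _ _).trans ?_
        have h1 : ∑ i, ‖((pt (3 / 2) t - z i)⁻¹) ^ (k + 1)‖ ≤ ∑ _i : Fin n, E :=
          Finset.sum_le_sum fun i _ => hfar i (hex i)
        refine h1.trans ?_
        rw [Finset.sum_const, nsmul_eq_mul, Finset.card_univ, Fintype.card_fin]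
        linarith
    rw [hErr]
    linarith [habs.2]
  · -- at an ordinate
    intro hzt
    have hmem : pt (1 / 2) t ∈ closedBall (pt 10 t) (97 / 10) := by
      refine pt_mem_disc (by norm_num) ?_
      norm_num
    obtain ⟨i0, hi0⟩ := hz2 _ hmem hzt
    have him : |t - (z i0).im| < d / 2 := by
      rw [hi0, pt_im, sub_self, abs_zero]; positivity
    have hw : (pt (3 / 2) t - z i0)⁻¹ = 1 := by
      have : pt (3 / 2) t - z i0 = 1 := by
        rw [hi0]
        apply Complex.ext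
        · simp [pt]; norm_num
        · simp [pt]
      rw [this, inv_one]
    have hS : 1 - n * E ≤ ‖∑ i, ((pt (3 / 2) t - z i)⁻¹) ^ (k + 1)‖ := by
      rw [← Finset.add_sum_erase univ _ (mem_univ i0), hw, one_pow]
      have h1 : ‖∑ i ∈ univ.erase i0, ((pt (3 / 2) t - z i)⁻¹) ^ (k + 1)‖ ≤ n * E := by
        refine (norm_sum_le _ _).trans ?_
        have h1 : ∑ i ∈ univ.erase i0, ‖((pt (3 / 2) t - z i)⁻¹) ^ (k + 1)‖ ≤
            ∑ _i ∈ univ.erase i0, E := by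
          refine Finset.sum_le_sum fun i hi => hfar i ?_
          by_contra hcon
          exact (mem_erase.1 hi).1 (hclose i i0 (not_le.1 hcon) him)
        refine h1.trans ?_
        rw [Finset.sum_const, nsmul_eq_mul]
        refine mul_le_mul_of_nonneg_right ?_ hE0
        have h2 : (univ.erase i0 : Finset (Fin n)).card ≤ n := by
          refine (Finset.card_erase_le).trans ?_
          rw [Finset.card_univ, Fintype.card_fin]
        exact_mod_cast h2
      have h2 := norm_sub_norm_le (1 : ℂ) (-∑ i ∈ univ.erase i0, ((pt (3 / 2) t - z i)⁻¹) ^ (k + 1))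
      rw [sub_neg_eq_add, norm_neg, norm_one] at h2
      linarith
    rw [hErr]
    linarith [habs.1]

end Pool.Agent.ZP20
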